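import Mathlib
import Pool.Agent.H58.SZK.Dim
import Pool.Agent.H58.SZK.Hilb

/-!
Iterated hyperplane sections through a rational point, and the key counting inequality.
-/

namespace Pool.Agent.H58.SZK

open MvPolynomial

set_option linter.unusedSectionVars false

universe u

variable {K : Type u} [Field K] [CharZero K]

attribute [local instance] MvPolynomial.gradedAlgebra

variable {N : ℕ}

/-- linear form with coefficient vector `w` -/
noncomputable def lin (w : Fin N → K) : MvPolynomial (Fin N) K := ∑ i, C (w i) * X i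

theorem lin_hom (w : Fin N → K) : (lin w).IsHomogeneous 1 := by
  unfold lin
  exact IsHomogeneous.sum _ _ _ fun i _ => isHomogeneous_C_mul_X _ _

theorem lin_add (w w' : Fin N → K) : lin (w + w') = lin w + lin w' := by
  unfold lin
  rw [← Finset.sum_add_distrib]
  refine Finset.sum_congr rfl fun i _ => ?_
  rw [Pi.add_apply, C_add, add_mul]

theorem lin_smul (c : K) (w : Fin N → K) : lin (c • w) = C c * lin w := by
  unfold lin
  rw [Finset.mul_sum]
  refine Finset.sum_congr rfl fun i _ => ?_
  rw [Pi.smul_apply, smul_eq_mul, C_mul, mul_assoc]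

theorem eval_lin (v w : Fin N → K) : eval v (lin w) = ∑ i, w i * v i := by
  unfold lin
  simp

/-- the restriction of polynomials to the line spanned by `v` -/
noncomputable def evL (v : Fin N → K) : MvPolynomial (Fin N) K →ₐ[K] Polynomial K :=
  aeval (fun i => Polynomial.C (v i) * Polynomial.X)

/-- the homogeneous prime ideal of the point `[v]` -/
noncomputable def ptIdeal (v : Fin N → K) : Ideal (MvPolynomial (Fin N) K) :=
  RingHom.ker (evL v)

instance ptIdeal_prime (v : Fin N → K) : (ptIdeal v).IsPrime := RingHom.ker_isPrime _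

theorem mem_ptIdeal {v : Fin N → K} {f : MvPolynomial (Fin N) K} :
    f ∈ ptIdeal v ↔ evL v f = 0 := RingHom.mem_ker

theorem eval_evL (v : Fin N → K) (f : MvPolynomial (Fin N) K) :
    Polynomial.eval 1 (evL v f) = eval v f := by
  have : (Polynomial.evalRingHom (1 : K)).comp (evL v : MvPolynomial (Fin N) K →+* _) =
      eval v := by
    apply MvPolynomial.ringHom_ext
    · intro r
      simp [evL]
    · intro i
      simp [evL]
  exact congrArg (fun φ : MvPolynomial (Fin N) K →+* K => φ f) this

theorem eval_eq_zero_of_mem {v : Fin N → K} {f : MvPolynomial (Fin N) K} (h : f ∈ ptIdeal v) :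
    eval v f = 0 := by
  rw [← eval_evL, mem_ptIdeal.1 h, Polynomial.eval_zero]

theorem evL_hom (v : Fin N → K) {t : ℕ} {f : MvPolynomial (Fin N) K} (hf : f.IsHomogeneous t) :
    evL v f = Polynomial.C (eval v f) * Polynomial.X ^ t := by
  unfold evL
  rw [aeval_def, eval₂_eq', eval_eq', map_sum, Finset.sum_mul]
  refine Finset.sum_congr rfl fun m hm => ?_
  have hdeg : ∑ i, m i = t := by
    have := hf (mem_support_iff.1 hm)
    rw [Finsupp.weight_apply, Finsupp.sum_fintype _ _ (by simp)] at this
    simpa using this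
  simp only [mul_pow, Finset.prod_mul_distrib, map_mul, map_prod, map_pow]
  rw [Finset.prod_pow_eq_pow_sum, hdeg, mul_assoc]
  rfl

theorem mem_ptIdeal_of_hom {v : Fin N → K} {t : ℕ} {f : MvPolynomial (Fin N) K}
    (hf : f.IsHomogeneous t) (h : eval v f = 0) : f ∈ ptIdeal v := by
  rw [mem_ptIdeal, evL_hom v hf, h]
  simp

theorem lin_mem_ptIdeal {v w : Fin N → K} : lin w ∈ ptIdeal v ↔ ∑ i, w i * v i = 0 := by
  rw [← eval_lin]
  exact ⟨eval_eq_zero_of_mem, mem_ptIdeal_of_hom (lin_hom w)⟩

theorem minimalPrimes_hom {J : Ideal (MvPolynomial (Fin N) K)}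
    (hJ : J.IsHomogeneous (homogeneousSubmodule (Fin N) K))
    {Q : Ideal (MvPolynomial (Fin N) K)} (hQ : Q ∈ J.minimalPrimes) :
    Q.IsHomogeneous (homogeneousSubmodule (Fin N) K) := by
  have hQp := hQ.isPrime
  have hcore := Ideal.IsPrime.homogeneousCore (𝒜 := homogeneousSubmodule (Fin N) K) hQp
  have hle : (Q.homogeneousCore (homogeneousSubmodule (Fin N) K)).toIdeal ≤ Q :=
    Ideal.toIdeal_homogeneousCore_le _ _
  have hJle : J ≤ (Q.homogeneousCore (homogeneousSubmodule (Fin N) K)).toIdeal := by
    have h1 := Ideal.homogeneousCore_mono (homogeneousSubmodule (Fin N) K) hQ.le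
    have h2 := hJ.toIdeal_homogeneousCore_eq_self
    rw [← h2]
    exact h1
  have := hQ.2 ⟨hcore, hJle⟩ hle
  have heq := le_antisymm this hle
  rw [heq]
  exact HomogeneousIdeal.isHomogeneous _

/-- `HasType v y l P`: successive hyperplane sections of `V(P)` through the point `v`. -/
def HasType (v : Fin N → K) (y : ℕ → Fin N → K) :
    List ℕ → Ideal (MvPolynomial (Fin N) K) → Prop
  | [], P => P ≤ ptIdeal v
  | s :: l, P => P ≤ ptIdeal v ∧ (∀ j < s, lin (y j) ∈ P) ∧ lin (y s) ∉ P ∧
      ∃ Q ∈ (P ⊔ Ideal.span {lin (y s)}).minimalPrimes, HasType v y l Q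

theorem HasType.le {v : Fin N → K} {y : ℕ → Fin N → K} {l : List ℕ}
    {P : Ideal (MvPolynomial (Fin N) K)} (h : HasType v y l P) : P ≤ ptIdeal v := by
  cases l with
  | nil => exact h
  | cons s l => exact h.1

theorem exists_hasType (v : Fin N → K) (y : ℕ → Fin N → K) (n : ℕ) (hv : v ≠ 0)
    (hyv : ∀ j < n, ∑ i, y j i * v i = 0)
    (hspan : ∀ w : Fin N → K, ∑ i, w i * v i = 0 →
      w ∈ Submodule.span K (y '' {j | j < n})) :
    ∀ (k m : ℕ) (P : Ideal (MvPolynomial (Fin N) K)), P.IsPrime → P ≤ ptIdeal v →
      (∀ j < m, lin (y j) ∈ P) →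
      ((k + 1 : ℕ) : Cardinal) ≤ Algebra.trdeg K (MvPolynomial (Fin N) K ⧸ P) →
      ∃ l : List ℕ, l.length = k ∧ l.Pairwise (· < ·) ∧ (∀ s ∈ l, m ≤ s ∧ s < n) ∧
        HasType v y l P := by
  intro k
  induction k with
  | zero =>
    intro m P hP hPv _ _
    exact ⟨[], rfl, List.Pairwise.nil, by simp, hPv⟩
  | succ k ih =>
    intro m P hP hPv hm htr
    classical
    have hex : ∃ s, s < n ∧ lin (y s) ∉ P := by
      by_contra hcon
      push Not at hcon
      have hall : ∀ w : Fin N → K, ∑ i, w i * v i = 0 → lin w ∈ P := by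
        intro w hw
        have := hspan w hw
        clear hw
        induction this using Submodule.span_induction with
        | mem x hx =>
          obtain ⟨j, hj, rfl⟩ := hx
          exact hcon j hj
        | zero =>
          have : lin (0 : Fin N → K) = 0 := by simp [lin]
          rw [this]; exact P.zero_mem
        | add a b _ _ ha hb => rw [lin_add]; exact P.add_mem ha hb
        | smul c a _ ha => rw [lin_smul]; exact P.mul_mem_left _ ha
      obtain ⟨i₀, hi₀⟩ := Function.ne_iff.1 hv
      have h1 := trdeg_le_one P v i₀ hi₀ (by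
        intro i
        have h2 := hall (v i₀ • Pi.single i 1 - v i • Pi.single i₀ 1) (by
          simp only [Pi.sub_apply, Pi.smul_apply, Pi.single_apply, smul_eq_mul, sub_mul,
            Finset.sum_sub_distrib, mul_ite, mul_one, mul_zero, ite_mul, zero_mul]
          simp [mul_comm])
        have h3 : lin (v i₀ • Pi.single i (1 : K) - v i • Pi.single i₀ (1 : K) : Fin N → K)
            = C (v i₀) * X i - C (v i) * X i₀ := by
          unfold lin
          simp only [Pi.sub_apply, Pi.smul_apply, smul_eq_mul, C_sub, C_mul, sub_mul,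
            Finset.sum_sub_distrib]
          congr 1
          · rw [Finset.sum_eq_single i]
            · simp
            · intro b _ hb; simp [hb]
            · intro h; exact absurd (Finset.mem_univ _) h
          · rw [Finset.sum_eq_single i₀]
            · simp
            · intro b _ hb; simp [hb]
            · intro h; exact absurd (Finset.mem_univ _) h
        rwa [h3] at h2)
      have h4 := htr.trans h1
      have h5 : k + 1 + 1 ≤ 1 := by exact_mod_cast h4
      omega
    set s := Nat.find hex with hs
    obtain ⟨hsn, hsP⟩ := Nat.find_spec hex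
    have hmin : ∀ j < s, lin (y j) ∈ P := by
      intro j hj
      by_contra hcon
      exact Nat.find_min hex hj ⟨by omega, hcon⟩
    have hms : m ≤ s := by
      by_contra hcon
      push Not at hcon
      exact hsP (hm s hcon)
    have hJle : P ⊔ Ideal.span {lin (y s)} ≤ ptIdeal v := by
      refine sup_le hPv ?_
      rw [Ideal.span_singleton_le_iff_mem]
      exact lin_mem_ptIdeal.2 (hyv s hsn)
    obtain ⟨Q, hQ, hQv⟩ := Ideal.exists_minimalPrimes_le hJle
    have hQp := hQ.isPrime
    have hPQ : P ≤ Q := le_sup_left.trans hQ.le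
    have hdrop := trdeg_drop P (lin (y s)) Q hQ (k + 1) htr
    obtain ⟨l, hl1, hl2, hl3, hl4⟩ := ih (s + 1) Q hQp hQv (by
      intro j hj
      rcases Nat.lt_succ_iff_lt_or_eq.1 hj with h | h
      · exact hPQ (hmin j h)
      · rw [h]
        exact hQ.le (le_sup_right (a := P) (Ideal.subset_span rfl))) hdrop
    refine ⟨s :: l, by simp [hl1], ?_, ?_, hPv, hmin, hsP, Q, hQ, hl4⟩
    · rw [List.pairwise_cons]
      exact ⟨fun a ha => (hl3 a ha).1, hl2⟩
    · intro a ha
      rcases List.mem_cons.1 ha with rfl | ha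
      · exact ⟨hms, hsn⟩
      · exact ⟨hms.trans (by have := (hl3 a ha).1; omega), (hl3 a ha).2⟩

end Pool.Agent.H58.SZK
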