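import Mathlib
import Pool.Agent.H58.SZK.Key2

/-!
The class bound for integer vectors in dyadic boxes.
-/

namespace Pool.Agent.H58.SZK

open Finset

set_option linter.unusedSectionVars false

universe u

variable {K : Type u} [Field K] [CharZero K]

/-- integer vectors with entries bounded by `2^(a j)` -/
def YY (n : ℕ) (a : ℕ → ℕ) (j : ℕ) : Set (Fin (n + 1) → K) :=
  {w | ∃ z : Fin (n + 1) → ℤ, (w = fun i => (z i : K)) ∧ ∀ i, |z i| ≤ 2 ^ a j}

/-- exponent in the class bound -/
def expo (n : ℕ) (a : ℕ → ℕ) (s : ℕ) : ℕ := (n + 1 - s) * a s + ∑ j ∈ range s, a j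

/-- the class bound -/
def Kb (n : ℕ) (a : ℕ → ℕ) (s : ℕ) : ℕ := (2 * n + 3) ^ (n + 1) * 2 ^ expo n a s

theorem classBound (n : ℕ) (a : ℕ → ℕ) (ha : ∀ j k, j ≤ k → k < n → a j ≤ a k) :
    ClassBound (n + 1) n (YY (K := K) n a) (Kb n a) := by
  classical
  intro s hs M _ _ φ g hgY hφg hind 𝒞 h𝒞
  choose! w hwY hw using h𝒞
  have hwY' : ∀ c ∈ 𝒞, ∃ z : Fin (n + 1) → ℤ, (w c = fun i => (z i : K)) ∧
      ∀ i, |z i| ≤ 2 ^ a s := hwY
  choose! z hz1 hz2 using hwY'
  have hgY' : ∀ j < s, ∃ z : Fin (n + 1) → ℤ, (g j = fun i => (z i : K)) ∧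
      ∀ i, |z i| ≤ 2 ^ a j := hgY
  choose! u hu1 hu2 using hgY'
  let F : M × (Fin s → ℕ) → (Fin (n + 1) → ℤ) := fun p => fun i =>
    z p.1 i + ∑ j : Fin s, (p.2 j : ℤ) * u j i
  set R : ℕ := (n + 1) * 2 ^ a s with hR
  have has : ∀ j : Fin s, a j ≤ a s := fun j => ha j s (by omega) hs
  have hcast : ∀ p ∈ 𝒞 ×ˢ Fintype.piFinset (fun j : Fin s => range (2 ^ (a s - a j))),
      (fun i => (F p i : K)) = w p.1 + ∑ j : Fin s, (p.2 j : K) • g j := by
    intro p hp
    obtain ⟨hp1, _⟩ := Finset.mem_product.1 hp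
    funext i
    rw [Pi.add_apply, hz1 p.1 hp1, Finset.sum_apply]
    simp only [F, Int.cast_add, Int.cast_sum, Int.cast_mul, Int.cast_natCast, Pi.smul_apply,
      smul_eq_mul]
    congr 1
    refine Finset.sum_congr rfl fun j _ => ?_
    rw [hu1 j j.2]
  have hcard := Finset.card_le_card_of_injOn
    (s := 𝒞 ×ˢ Fintype.piFinset (fun j : Fin s => range (2 ^ (a s - a j))))
    (t := Fintype.piFinset fun _ : Fin (n + 1) => Finset.Icc (-(R : ℤ)) R) F ?_ ?_
  · rw [Finset.card_product, Fintype.card_piFinset, Fintype.card_piFinset] at hcard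
    simp only [card_range, Int.card_Icc, prod_const, Finset.card_univ, Fintype.card_fin] at hcard
    have h1 : ((R : ℤ) + 1 - -(R : ℤ)).toNat = 2 * R + 1 := by omega
    rw [h1] at hcard
    have h2 : (∏ j : Fin s, 2 ^ (a s - a j)) * 2 ^ (∑ j ∈ range s, a j) = 2 ^ (s * a s) := by
      rw [Finset.prod_pow_eq_pow_sum, ← pow_add]
      congr 1
      rw [← Fin.sum_univ_eq_sum_range (fun j => a j) s, ← Finset.sum_add_distrib]
      rw [Finset.sum_congr rfl (g := fun _ => a s)]
      · simp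
      · intro j _
        have := has j
        omega
    have h3 : (2 * R + 1) ^ (n + 1) ≤ ((2 * n + 3) * 2 ^ a s) ^ (n + 1) := by
      refine Nat.pow_le_pow_left ?_ _
      have : 1 ≤ 2 ^ a s := Nat.one_le_two_pow
      rw [hR]
      nlinarith
    have h4 : #𝒞 * 2 ^ (s * a s) ≤ Kb n a s * 2 ^ (s * a s) := by
      calc #𝒞 * 2 ^ (s * a s)
          = (#𝒞 * ∏ j : Fin s, 2 ^ (a s - a j)) * 2 ^ (∑ j ∈ range s, a j) := by
            rw [← h2]; ring
        _ ≤ ((2 * n + 3) * 2 ^ a s) ^ (n + 1) * 2 ^ (∑ j ∈ range s, a j) :=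
            Nat.mul_le_mul_right _ (hcard.trans h3)
        _ = (2 * n + 3) ^ (n + 1) * 2 ^ (a s * (n + 1) + ∑ j ∈ range s, a j) := by
            rw [mul_pow, ← pow_mul, pow_add]; ring
        _ = Kb n a s * 2 ^ (s * a s) := by
            unfold Kb expo
            rw [mul_assoc, ← pow_add]
            congr 2
            obtain ⟨d, hd⟩ : ∃ d, n + 1 = s + d := ⟨n + 1 - s, by omega⟩
            have hd2 : n + 1 - s = d := by omega
            rw [hd2, hd]
            ring
    exact Nat.le_of_mul_le_mul_right h4 (by positivity)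
  · intro p hp
    obtain ⟨hp1, hp2⟩ := Finset.mem_product.1 (Finset.mem_coe.1 hp)
    rw [Fintype.mem_piFinset] at hp2
    rw [Finset.mem_coe, Fintype.mem_piFinset]
    intro i
    rw [Finset.mem_Icc, ← abs_le]
    calc |F p i| ≤ |z p.1 i| + |∑ j : Fin s, (p.2 j : ℤ) * u j i| := abs_add_le _ _
      _ ≤ 2 ^ a s + ∑ j : Fin s, |(p.2 j : ℤ) * u j i| :=
          add_le_add (hz2 p.1 hp1 i) (Finset.abs_sum_le_sum_abs _ _)
      _ ≤ 2 ^ a s + ∑ _j : Fin s, (2 ^ a s : ℤ) := by
          refine add_le_add le_rfl (Finset.sum_le_sum fun j _ => ?_)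
          rw [abs_mul, Nat.abs_cast]
          have h1 := Finset.mem_range.1 (hp2 j)
          have h2 := hu2 j j.2 i
          have h3 : ((p.2 j : ℕ) : ℤ) ≤ 2 ^ (a s - a j) := by exact_mod_cast h1.le
          calc ((p.2 j : ℕ) : ℤ) * |u j i| ≤ 2 ^ (a s - a j) * 2 ^ a j :=
                mul_le_mul h3 h2 (abs_nonneg _) (by positivity)
            _ = 2 ^ a s := by rw [← pow_add, Nat.sub_add_cancel (has j)]
      _ ≤ R := by
          rw [Finset.sum_const, Finset.card_univ, Fintype.card_fin, nsmul_eq_mul, hR]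
          push_cast
          have h1 : (1 : ℤ) ≤ 2 ^ a s := by exact_mod_cast Nat.one_le_two_pow
          have h2 : (s : ℤ) ≤ n := by exact_mod_cast hs.le
          nlinarith
  · intro p hp q hq hpq
    have h1 := hcast p hp
    have h2 := hcast q hq
    have h3 : w p.1 + ∑ j : Fin s, (p.2 j : K) • g j = w q.1 + ∑ j : Fin s, (q.2 j : K) • g j := by
      rw [← h1, ← h2, hpq]
    obtain ⟨hp1, hp2⟩ := Finset.mem_product.1 (Finset.mem_coe.1 hp)
    obtain ⟨hq1, hq2⟩ := Finset.mem_product.1 (Finset.mem_coe.1 hq)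
    have h4 : p.1 = q.1 := by
      have h5 := congrArg φ h3
      simp only [map_add, map_sum, map_smul] at h5
      rw [Finset.sum_eq_zero (fun j _ => by rw [hφg j j.2, smul_zero]),
        Finset.sum_eq_zero (fun j _ => by rw [hφg j j.2, smul_zero]), add_zero, add_zero,
        hw p.1 hp1, hw q.1 hq1] at h5
      exact h5
    rw [h4, add_right_inj] at h3
    have h6 : LinearIndependent K (fun j : Fin s => g j) := by
      have := hind.comp (fun j : Fin s => (⟨j, by omega⟩ : Fin n)) (by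
        intro j k hjk
        have := congrArg Fin.val hjk
        exact Fin.ext this)
      exact this
    have h7 : ∀ j, ((p.2 j : K) - q.2 j) = 0 := by
      apply Fintype.linearIndependent_iff.1 h6
      simp only [sub_smul, Finset.sum_sub_distrib]
      rw [h3, sub_self]
    refine Prod.ext h4 ?_
    funext j
    have := h7 j
    have h8 : (p.2 j : K) = q.2 j := sub_eq_zero.1 this
    exact_mod_cast h8

end Pool.Agent.H58.SZK
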