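import Mathlib
import Pool.Graph.R_pool_sql_team_seeded_843ab51a.V11292.SZ.GN2

/-!
Short bases of `x^⊥ ∩ ℤ^{n+1}`, with an explicit constant and over a field of characteristic zero.
-/

namespace Pool.Agent.H58.SZK

open Module Finset Function Pool.Agent.V11292.SZ

set_option linter.unusedSectionVars false

universe u

variable {K : Type u} [Field K] [CharZero K]

/-- rational vectors with integer entries that are independent over `ℚ` are independent over
every field of characteristic zero -/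
theorem linInd_cast {ι κ : Type} [Fintype ι] (y : ι → κ → ℤ)
    (h : LinearIndependent ℚ (fun j => fun i => (y j i : ℚ))) :
    LinearIndependent K (fun j => fun i => (y j i : K)) := by
  classical
  rw [Fintype.linearIndependent_iff] at h ⊢
  intro g hg j
  rw [← Module.forall_dual_apply_eq_zero_iff ℚ (g j)]
  intro φ
  refine h (fun j => φ (g j)) ?_ j
  funext i
  have h1 := congrArg φ (congrFun hg i)
  simp only [Finset.sum_apply, Pi.smul_apply, smul_eq_mul, Pi.zero_apply, map_sum, map_zero] at h1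
  simp only [Finset.sum_apply, Pi.smul_apply, smul_eq_mul, Pi.zero_apply]
  rw [← h1]
  refine Finset.sum_congr rfl fun j _ => ?_
  have h2 : g j * ((y j i : ℤ) : K) = (y j i : ℚ) • g j := by
    rw [Rat.smul_def, mul_comm]
    norm_num
  rw [h2, map_smul, smul_eq_mul, mul_comm]

/-- integer vectors proportional over `K` are proportional over `ℚ` -/
theorem ne_smul_cast {κ : Type} (x x' : κ → ℤ) (hx' : x' ≠ 0)
    (h : ∀ c : ℚ, (fun l => (x l : ℚ)) ≠ c • (fun l => (x' l : ℚ))) (c : K) :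
    (fun l => (x l : K)) ≠ c • (fun l => (x' l : K)) := by
  intro heq
  obtain ⟨b, hb⟩ := Function.ne_iff.1 hx'
  have hb' : x' b ≠ 0 := hb
  apply h ((x b : ℚ) / (x' b : ℚ))
  funext l
  have h1 : (x l : K) = c * x' l := congrFun heq l
  have h2 : (x b : K) = c * x' b := congrFun heq b
  have h3 : (x l : K) * x' b = x b * x' l := by rw [h1, h2]; ring
  have h4 : x l * x' b = x b * x' l := by exact_mod_cast h3
  have h5 : (x l : ℚ) * x' b = x b * x' l := by exact_mod_cast h4
  have hb2 : (x' b : ℚ) ≠ 0 := by exact_mod_cast hb'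
  rw [Pi.smul_apply, smul_eq_mul, div_mul_eq_mul_div, ← h5, mul_div_assoc, div_self hb2, mul_one]

/-- short basis of `x^⊥`, with the explicit constant -/
theorem short_basis (n : ℕ) (x : Fin (n + 1) → ℤ) (hx : x ≠ 0) (B : ℕ) (hB : ∀ i, |x i| ≤ B) :
    ∃ (a : ℕ → ℕ) (y : ℕ → Fin (n + 1) → ℤ), (∀ j k, j ≤ k → k < n → a j ≤ a k) ∧
      (∀ j < n, ∀ i, |y j i| ≤ 2 ^ a j) ∧
      LinearIndependent K (fun j : Fin n => fun i => (y j i : K)) ∧
      (∀ j < n, ∑ i, y j i * x i = 0) ∧
      2 ^ (∑ j ∈ Finset.range n, a j) ≤ 3 * (n + 1) * (6 ^ n) ^ n * B := by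
  classical
  obtain ⟨y, hy1, hy2⟩ := exists_short_vectors x hx n le_rfl
  obtain ⟨M, hM⟩ := exists_rk_eq x hx
  refine ⟨aE x, fun j => if h : j < n then y ⟨j, h⟩ else 0, ?_, ?_, ?_, ?_, ?_⟩
  · intro j k hjk hk
    exact aE_mono (m := M) hjk (by omega)
  · intro j hj i
    beta_reduce
    rw [dif_pos hj]
    have := (mem_Lset.1 (hy2 ⟨j, hj⟩)).1 i
    have h2 := this.le
    exact_mod_cast h2
  · have h1 : LinearIndependent ℚ (fun j : Fin n => castR (y j)) := by
      refine hy1.restrict_scalars ?_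
      intro a b hab
      simpa using hab
    let F : (Fin (n + 1) → ℚ) →ₗ[ℚ] (Fin (n + 1) → ℝ) :=
      { toFun := fun w i => (w i : ℝ)
        map_add' := by intro a b; funext i; simp
        map_smul' := by intro c b; funext i; simp [Rat.smul_def] }
    have h2 : (fun j : Fin n => castR (y j)) = F ∘ (fun j : Fin n => fun i => (y j i : ℚ)) := by
      funext j i
      simp [F, castR]
    rw [h2] at h1
    have h3 := h1.of_comp F
    have h4 : (fun j : Fin n => fun i => (((fun j => if h : j < n then y ⟨j, h⟩ else 0 :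
        ℕ → Fin (n + 1) → ℤ) (j : ℕ) i : ℤ) : K)) = (fun j : Fin n => fun i => (y j i : K)) := by
      funext j i
      beta_reduce
      rw [dif_pos j.2]
    rw [h4]
    exact linInd_cast y h3
  · intro j hj
    beta_reduce
    rw [dif_pos hj]
    exact (mem_Lset.1 (hy2 ⟨j, hj⟩)).2
  · have h1 := card_mul_le x (6 ^ n) le_rfl n le_rfl M hM
    have h2 := le_card_Lset x hx B hB M
    have h3 : 2 ^ (M * n) * 2 ^ (∑ j ∈ Finset.range n, aE x j) ≤
        2 ^ (M * n) * (3 * (n + 1) * (6 ^ n) ^ n * B) := by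
      calc 2 ^ (M * n) * 2 ^ (∑ j ∈ Finset.range n, aE x j)
          ≤ (Lset x (2 ^ M)).card * (3 * (n + 1) * B) * 2 ^ (∑ j ∈ Finset.range n, aE x j) :=
            Nat.mul_le_mul_right _ h2
        _ = (Lset x (2 ^ M)).card * 2 ^ (∑ j ∈ Finset.range n, aE x j) * (3 * (n + 1) * B) := by
            ring
        _ ≤ (6 ^ n) ^ n * 2 ^ (M * n) * (3 * (n + 1) * B) := Nat.mul_le_mul_right _ h1
        _ = _ := by ring
    exact Nat.le_of_mul_le_mul_left h3 (by positivity)

/-- `1/(1-1/q) ≤ 2(n+1)` for `q = 2^{1/(n+1)}` -/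
theorem inv_bound (n : ℕ) (q : ℝ) (hq : 1 < q) (hq2 : q ^ (n + 1) = 2) :
    1 / (1 - 1 / q) ≤ 2 * ((n : ℝ) + 1) := by
  have hn : (0 : ℝ) < (n : ℝ) + 1 := by positivity
  have hq0 : 0 < q := by linarith
  have h1 : (1 / q) ^ (n + 1) = 1 / 2 := by
    rw [one_div_pow, hq2]
  have h2 : (1 : ℝ) + ((n + 1 : ℕ) : ℝ) * (-(1 / (2 * ((n : ℝ) + 1)))) ≤
      (1 + -(1 / (2 * ((n : ℝ) + 1)))) ^ (n + 1) := by
    refine one_add_mul_le_pow ?_ _
    have : 1 / (2 * ((n : ℝ) + 1)) ≤ 1 := by
      rw [div_le_one (by positivity)]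
      have : (0 : ℝ) ≤ n := by positivity
      linarith
    linarith
  have h3 : (1 : ℝ) + ((n + 1 : ℕ) : ℝ) * (-(1 / (2 * ((n : ℝ) + 1)))) = 1 / 2 := by
    push_cast
    field_simp
    ring
  rw [h3] at h2
  have h4 : (0 : ℝ) ≤ 1 + -(1 / (2 * ((n : ℝ) + 1))) := by
    have : 1 / (2 * ((n : ℝ) + 1)) ≤ 1 := by
      rw [div_le_one (by positivity)]
      have : (0 : ℝ) ≤ n := by positivity
      linarith
    linarith
  have h5 : 1 / q ≤ 1 + -(1 / (2 * ((n : ℝ) + 1))) := by
    refine le_of_pow_le_pow_left₀ (n := n + 1) (by omega) h4 ?_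
    rw [h1]
    exact h2
  have h6 : 1 / (2 * ((n : ℝ) + 1)) ≤ 1 - 1 / q := by linarith
  have h7 : 0 < 1 / (2 * ((n : ℝ) + 1)) := by positivity
  calc 1 / (1 - 1 / q) ≤ 1 / (1 / (2 * ((n : ℝ) + 1))) := one_div_le_one_div_of_le h7 h6
    _ = _ := by rw [one_div_one_div]

end Pool.Agent.H58.SZK
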