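import Mathlib
import Pool.Agent.H58.SZK.Flag
import Pool.Agent.H58.SZK.GNK
import Pool.Graph.R_pool_sql_team_seeded_843ab51a.V11292.SZ.Sum

/-!
Assembly of the proof.
-/

namespace Pool.Agent.H58.SZK

open MvPolynomial Finset Filter Topology Pool.Agent.V11292.SZ

set_option linter.unusedSectionVars false

universe u

variable {K : Type u} [Field K] [CharZero K]

attribute [local instance] MvPolynomial.gradedAlgebra

variable {n : ℕ}

/-- exponents from differences -/
def aOf (c : Fin n → ℕ) (j : ℕ) : ℕ := ∑ i : Fin n, if (i : ℕ) ≤ j then c i else 0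

theorem aOf_mono (c : Fin n → ℕ) {j k : ℕ} (h : j ≤ k) : aOf c j ≤ aOf c k := by
  unfold aOf
  refine Finset.sum_le_sum fun i _ => ?_
  split_ifs <;> omega

theorem sum_range_ite (s i c : ℕ) :
    ∑ j ∈ range s, (if i ≤ j then c else 0) = (s - i) * c := by
  induction s with
  | zero => simp
  | succ s ih =>
    rw [Finset.sum_range_succ, ih]
    split_ifs with h
    · rw [Nat.succ_sub h, Nat.succ_mul]
    · have h1 : s - i = 0 := by omega
      have h2 : s + 1 - i = 0 := by omega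
      rw [h1, h2]; simp

theorem sum_aOf (c : Fin n → ℕ) : ∑ j ∈ range n, aOf c j = Wt c := by
  unfold aOf Wt
  rw [Finset.sum_comm]
  refine Finset.sum_congr rfl fun i _ => ?_
  exact sum_range_ite n i (c i)

theorem expo_aOf (c : Fin n → ℕ) (s : ℕ) (hs : s ≤ n) :
    expo n (aOf c) s = ∑ i : Fin n, if (i : ℕ) ≤ s then (n + 1 - (i : ℕ)) * c i else 0 := by
  unfold expo aOf
  rw [Finset.sum_comm, Finset.mul_sum, ← Finset.sum_add_distrib]
  refine Finset.sum_congr rfl fun i _ => ?_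
  rw [sum_range_ite]
  split_ifs with h
  · rw [← add_mul]
    congr 1
    omega
  · have : s - (i : ℕ) = 0 := by omega
    rw [this]; simp

theorem sum_expo (c : Fin n → ℕ) (S : Finset ℕ) (hS : ∀ s ∈ S, s < n) :
    ∑ s ∈ S, expo n (aOf c) s = E1 (fun i => (S.filter (fun s => i ≤ s)).card) c := by
  unfold E1
  rw [Finset.sum_congr rfl (fun s hs => expo_aOf c s (hS s hs).le), Finset.sum_comm]
  refine Finset.sum_congr rfl fun i _ => ?_
  rw [← Finset.sum_filter, Finset.sum_const, smul_eq_mul]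
  ring

theorem E1_full (c : Fin n → ℕ) :
    E1 (fun i => ((range n).filter (fun s => i ≤ s)).card) c = E2 c := by
  unfold E1 E2
  refine Finset.sum_congr rfl fun i _ => ?_
  have : (range n).filter (fun s => (i : ℕ) ≤ s) = Finset.Ico (i : ℕ) n := by
    ext s
    simp only [Finset.mem_filter, Finset.mem_range, Finset.mem_Ico]
    omega
  beta_reduce
  rw [this, Nat.card_Ico]
  ring

theorem prod_Kb (c : Fin n → ℕ) (S : Finset ℕ) (hS : ∀ s ∈ S, s < n) :
    ∏ s ∈ S, Kb n (aOf c) s =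
      ((2 * n + 3) ^ (n + 1)) ^ S.card *
        2 ^ E1 (fun i => (S.filter (fun s => i ≤ s)).card) c := by
  unfold Kb
  rw [Finset.prod_mul_distrib, Finset.prod_const, Finset.prod_pow_eq_pow_sum, sum_expo c S hS]

/-- differences of a monotone sequence -/
theorem exists_diff (a : ℕ → ℕ) (ha : ∀ j k, j ≤ k → k < n → a j ≤ a k) :
    ∃ c : Fin n → ℕ, ∀ j < n, aOf c j = a j := by
  let cn : ℕ → ℕ := fun i => a i - (if i = 0 then 0 else a (i - 1))
  refine ⟨fun i => cn i, ?_⟩
  intro j hj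
  unfold aOf
  have h1 : (∑ i : Fin n, if (i : ℕ) ≤ j then cn i else 0) =
      ∑ i ∈ range n, if i ≤ j then cn i else 0 :=
    Fin.sum_univ_eq_sum_range (fun i => if i ≤ j then cn i else 0) n
  rw [h1, ← Finset.sum_filter]
  have h2 : (range n).filter (fun i => i ≤ j) = range (j + 1) := by
    ext i
    simp only [Finset.mem_filter, Finset.mem_range]
    omega
  rw [h2]
  clear h1 h2
  induction j with
  | zero => simp [cn]
  | succ j ih =>
    rw [Finset.sum_range_succ, ih (by omega)]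
    have := ha j (j + 1) (by omega) hj
    simp only [cn, Nat.add_eq_zero_iff, one_ne_zero, and_false, if_false, Nat.add_sub_cancel]
    omega

theorem le_ptIdeal {P : Ideal (MvPolynomial (Fin (n + 1)) K)}
    (hP : P.IsHomogeneous (homogeneousSubmodule (Fin (n + 1)) K)) (v : Fin (n + 1) → K)
    (h : ∀ f ∈ P, eval v f = 0) : P ≤ ptIdeal v := by
  intro f hf
  rw [← sum_homogeneousComponent f]
  refine Ideal.sum_mem _ fun m _ => ?_
  exact mem_ptIdeal_of_hom (homogeneousComponent_isHomogeneous m f)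
    (h _ (homogeneousComponent_mem_of_mem hP hf m))

theorem main_bound (n k : ℕ) (hn : 1 ≤ n) (hk : k ≤ n) :
    ∀ (X : Finset (Ideal (MvPolynomial (Fin (n + 1)) K)))
      (e : Ideal (MvPolynomial (Fin (n + 1)) K) → ℕ),
      (∀ P ∈ X, P.IsPrime ∧ P.IsHomogeneous (homogeneousSubmodule (Fin (n + 1)) K) ∧
        ringKrullDim (MvPolynomial (Fin (n + 1)) K ⧸ P) = ((k + 1 : ℕ) : WithBot ℕ∞) ∧
        Tendsto (fun t : ℕ => (k.factorial : ℝ) * hilb P t / (t : ℝ) ^ k) atTop
          (𝓝 (e P : ℝ))) →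
      ∀ B : ℕ, ∀ (ι : Type) [DecidableEq ι] (I : Finset ι) (x : ι → Fin (n + 1) → ℤ),
        (∀ i ∈ I, x i ≠ 0) → (∀ i ∈ I, ∀ j, |x i j| ≤ B) →
        (∀ i ∈ I, ∀ j ∈ I, i ≠ j → ∀ c : ℚ,
          (fun l => (x i l : ℚ)) ≠ c • (fun l => (x j l : ℚ))) →
        (∀ i ∈ I, ∃ P ∈ X, ∀ f ∈ P, eval (fun l => (x i l : K)) f = 0) →
        (I.card : ℝ) ≤ ((2 ^ (n + 2) * (2 * n + 2) ^ n * (2 * n + 3) ^ ((n + 1) * n) *
          (3 * (n + 1) * 6 ^ (n ^ 2)) ^ (k + 1) : ℕ) : ℝ) *
          ((∑ P ∈ X, e P : ℕ) : ℝ) ^ ((n : ℝ) / (n + 1)) * (B : ℝ) ^ (k + 1) := by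
  classical
  set Cn : ℕ := 3 * (n + 1) * (6 ^ n) ^ n with hCndef
  have hCn : 0 < Cn := by positivity
  set q : ℝ := (2 : ℝ) ^ ((1 : ℝ) / (n + 1)) with hq
  have hn1 : (0 : ℝ) < n + 1 := by positivity
  have hq1 : 1 < q := Real.one_lt_rpow (by norm_num) (by positivity)
  have hqpow : q ^ (n + 1) = 2 := by
    rw [hq, ← Real.rpow_natCast, ← Real.rpow_mul (by norm_num)]
    have : (1 : ℝ) / (n + 1) * ((n + 1 : ℕ) : ℝ) = 1 := by
      push_cast
      field_simp
    rw [this, Real.rpow_one]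
  set A0 : ℕ := ((2 * n + 3) ^ (n + 1)) ^ n with hA0
  set G : ℝ := 2 * (1 / (1 - 1 / q)) ^ n with hG
  have hG0 : 0 < G := by
    have : 1 / q < 1 := by rw [div_lt_one (by linarith)]; exact hq1
    have : 0 < 1 - 1 / q := by linarith
    positivity
  intro X e hX B ι _ I x hx0 hxB hxneQ hxP
  have hxne : ∀ i ∈ I, ∀ j ∈ I, i ≠ j → ∀ c : K,
      (fun l => (x i l : K)) ≠ c • (fun l => (x j l : K)) := fun i hi j hj hij =>
    ne_smul_cast (x i) (x j) (hx0 j hj) (hxneQ i hi j hj hij)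
  set d : ℕ := ∑ P ∈ X, e P with hd
  have hGle : G ≤ 2 * (2 * (n : ℝ) + 2) ^ n := by
    rw [hG]
    have h1 := inv_bound n q hq1 hqpow
    have h2 : (0 : ℝ) ≤ 1 / (1 - 1 / q) := by
      have : 1 / q < 1 := by rw [div_lt_one (by linarith)]; exact hq1
      have : 0 < 1 - 1 / q := by linarith
      positivity
    have h3 : (1 / (1 - 1 / q)) ^ n ≤ (2 * (n : ℝ) + 2) ^ n :=
      pow_le_pow_left₀ h2 (h1.trans (by linarith)) n
    linarith
  have hCfin : 2 ^ n * (A0 : ℝ) * G * 2 * (Cn : ℝ) ^ (k + 1) ≤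
      ((2 ^ (n + 2) * (2 * n + 2) ^ n * (2 * n + 3) ^ ((n + 1) * n) *
          (3 * (n + 1) * 6 ^ (n ^ 2)) ^ (k + 1) : ℕ) : ℝ) := by
    have h1 : (Cn : ℝ) = ((3 * (n + 1) * 6 ^ (n ^ 2) : ℕ) : ℝ) := by
      rw [hCndef, ← pow_mul, sq]
    have h2 : (A0 : ℝ) = (((2 * n + 3) ^ ((n + 1) * n) : ℕ) : ℝ) := by
      rw [hA0, ← pow_mul]
    calc 2 ^ n * (A0 : ℝ) * G * 2 * (Cn : ℝ) ^ (k + 1)
        ≤ 2 ^ n * (A0 : ℝ) * (2 * (2 * (n : ℝ) + 2) ^ n) * 2 * (Cn : ℝ) ^ (k + 1) := by
          have : (0 : ℝ) ≤ 2 ^ n * (A0 : ℝ) := by positivity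
          have h3 := mul_le_mul_of_nonneg_left hGle this
          have h4 : (0 : ℝ) ≤ 2 * (Cn : ℝ) ^ (k + 1) := by positivity
          have h5 := mul_le_mul_of_nonneg_right h3 h4
          calc _ = 2 ^ n * (A0 : ℝ) * G * (2 * (Cn : ℝ) ^ (k + 1)) := by ring
            _ ≤ _ := h5
            _ = _ := by ring
      _ = _ := by
          rw [h1, h2]
          push_cast
          rw [pow_add]
          ring
  rcases I.eq_empty_or_nonempty with hI | ⟨i₁, hi₁⟩
  · rw [hI]; simp; positivity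
  have hB1 : 1 ≤ B := one_le_B (hx0 i₁ hi₁) (hxB i₁ hi₁)
  -- data for each point
  have hdata : ∀ i ∈ I, ∃ (a : ℕ → ℕ) (y : ℕ → Fin (n + 1) → ℤ),
      (∀ j k, j ≤ k → k < n → a j ≤ a k) ∧
      (∀ j < n, ∀ l, |y j l| ≤ 2 ^ a j) ∧
      LinearIndependent K (fun j : Fin n => fun l => (y j l : K)) ∧
      (∀ j < n, ∑ l, y j l * x i l = 0) ∧
      2 ^ (∑ j ∈ Finset.range n, a j) ≤ Cn * B := fun i hi =>
    short_basis n (x i) (hx0 i hi) B (hxB i hi)
  choose! a y ha hya hyind hyx hprod using hdata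
  choose! P hPX hPv using hxP
  have hdiff : ∀ i ∈ I, ∃ c : Fin n → ℕ, ∀ j < n, aOf c j = a i j := fun i hi =>
    exists_diff (a i) (ha i hi)
  choose! cf hcf using hdiff
  let v : ι → Fin (n + 1) → K := fun i l => (x i l : K)
  let yq : ι → ℕ → Fin (n + 1) → K := fun i j l => (y i j l : K)
  have hv0 : ∀ i ∈ I, v i ≠ 0 := by
    intro i hi h
    apply hx0 i hi
    funext l
    have := congrFun h l
    simpa [v] using this
  have hyv : ∀ i ∈ I, ∀ j < n, ∑ l, yq i j l * v i l = 0 := by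
    intro i hi j hj
    have := hyx i hi j hj
    simp only [yq, v]
    exact_mod_cast this
  have hind : ∀ i ∈ I, LinearIndependent K (fun j : Fin n => yq i j) := fun i hi => hyind i hi
  have hspan : ∀ i ∈ I, ∀ w : Fin (n + 1) → K, ∑ l, w l * v i l = 0 →
      w ∈ Submodule.span K (yq i '' {j | j < n}) := fun i hi w hw =>
    span_of_indep (v i) (hv0 i hi) (yq i) (hind i hi) (hyv i hi) w hw
  -- types
  have htype : ∀ i ∈ I, ∃ l : List ℕ, l.length = k ∧ l.Pairwise (· < ·) ∧ (∀ s ∈ l, s < n) ∧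
      HasType (v i) (yq i) l (P i) := by
    intro i hi
    obtain ⟨hp1, hp2, hp3, _⟩ := hX (P i) (hPX i hi)
    have := hp1
    obtain ⟨l, h1, h2, h3, h4⟩ := exists_hasType (v i) (yq i) n (hv0 i hi) (hyv i hi)
      (hspan i hi) k 0 (P i) hp1 (le_ptIdeal hp2 (v i) (hPv i hi)) (by simp)
      (le_trdeg_of_krullDim (P i) (k + 1) hp3)
    exact ⟨l, h1, h2, fun s hs => (h3 s hs).2, h4⟩
  choose! lf hlf1 hlf2 hlf3 hlf4 using htype
  set β : ℕ := Nat.log 2 (Cn * B) with hβ
  set u : ℕ := Nat.clog 2 d with hu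
  set L : Finset (List ℕ) := ((range n).powersetCard k).image (fun S => S.sort (· ≤ ·)) with hL
  have hLcard : L.card ≤ 2 ^ n := by
    refine Finset.card_image_le.trans ?_
    rw [Finset.card_powersetCard, Finset.card_range]
    exact Nat.choose_le_two_pow n k
  have hLmem : ∀ l ∈ L, l.Nodup ∧ l.toFinset.card = k ∧ ∀ s ∈ l.toFinset, s < n := by
    intro l hl
    obtain ⟨S, hS, rfl⟩ := Finset.mem_image.1 hl
    obtain ⟨hS1, hS2⟩ := Finset.mem_powersetCard.1 hS
    refine ⟨Finset.sort_nodup _ _, ?_, ?_⟩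
    · rw [Finset.sort_toFinset]; exact hS2
    · intro s hs
      rw [Finset.sort_toFinset] at hs
      exact Finset.mem_range.1 (hS1 hs)
  have hmaps : ∀ i ∈ I, (lf i, cf i) ∈ L ×ˢ SW n β := by
    intro i hi
    rw [Finset.mem_product]
    constructor
    · have hnd : (lf i).Nodup := (hlf2 i hi).imp (fun h => ne_of_lt h)
      refine Finset.mem_image.2 ⟨(lf i).toFinset, ?_, ?_⟩
      · rw [Finset.mem_powersetCard]
        refine ⟨fun s hs => Finset.mem_range.2 (hlf3 i hi s (List.mem_toFinset.1 hs)), ?_⟩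
        rw [List.toFinset_card_of_nodup hnd]
        exact hlf1 i hi
      · rw [List.toFinset_sort _ hnd]
        exact (hlf2 i hi).imp (fun h => le_of_lt h)
    · rw [mem_SW, ← sum_aOf, Finset.sum_congr rfl
        (fun j hj => hcf i hi j (Finset.mem_range.1 hj))]
      exact Nat.le_log_of_pow_le (by norm_num) (hprod i hi)
  have hIcard : I.card = ∑ p ∈ L ×ˢ SW n β, (I.filter (fun i => (lf i, cf i) = p)).card :=
    Finset.card_eq_sum_card_fiberwise hmaps
  -- per fibre bounds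
  have hfib1 : ∀ p ∈ L ×ˢ SW n β, (I.filter (fun i => (lf i, cf i) = p)).card ≤
      A0 * 2 ^ (E1 (fun i => ((p.1.toFinset).filter (fun s => i ≤ s)).card) p.2) * d ∧
      (I.filter (fun i => (lf i, cf i) = p)).card ≤ A0 * 2 ^ (E2 p.2) := by
    rintro ⟨l, c⟩ hp
    obtain ⟨hlL, hcS⟩ := Finset.mem_product.1 hp
    obtain ⟨hnd, hlk, hln⟩ := hLmem l hlL
    set F := I.filter (fun i => (lf i, cf i) = (l, c)) with hF
    have hFI : ∀ i ∈ F, i ∈ I := fun i hi => (Finset.mem_filter.1 hi).1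
    have hFl : ∀ i ∈ F, lf i = l := fun i hi => congrArg Prod.fst (Finset.mem_filter.1 hi).2
    have hFc : ∀ i ∈ F, cf i = c := fun i hi => congrArg Prod.snd (Finset.mem_filter.1 hi).2
    have hcb := classBound (K := K) n (aOf c) (fun j k hjk _ => aOf_mono c hjk)
    have hY : ∀ i ∈ F, ∀ s < n, yq i s ∈ YY n (aOf c) s := by
      intro i hi s hs
      refine ⟨y i s, rfl, fun t => ?_⟩
      rw [← hFc i hi, hcf i (hFI i hi) s hs]
      exact hya i (hFI i hi) s hs t
    constructor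
    · have hsplit : F.card = ∑ P' ∈ X, (F.filter (fun i => P i = P')).card :=
        Finset.card_eq_sum_card_fiberwise (fun i hi => hPX i (hFI i hi))
      have hterm : ∀ P' ∈ X, (F.filter (fun i => P i = P')).card ≤
          (l.map (Kb n (aOf c))).prod * e P' := by
        intro P' hP'
        obtain ⟨hp1, hp2, _, hp4⟩ := hX P' hP'
        set F' := F.filter (fun i => P i = P') with hF'
        have hF'F : ∀ i ∈ F', i ∈ F := fun i hi => (Finset.mem_filter.1 hi).1
        obtain ⟨a', ha'⟩ := key n (YY n (aOf c)) (Kb n (aOf c)) hcb v yq l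
          (fun s hs => hln s (List.mem_toFinset.2 hs)) P' hp1 hp2 F'
          (fun i hi => hv0 i (hFI i (hF'F i hi)))
          (fun i hi j hj hij => hxne i (hFI i (hF'F i hi)) j (hFI j (hF'F j hj)) hij)
          (fun i hi => hY i (hF'F i hi)) (fun i hi => hind i (hFI i (hF'F i hi))) (by
            intro i hi
            have h1 := hlf4 i (hFI i (hF'F i hi))
            rw [hFl i (hF'F i hi), (Finset.mem_filter.1 hi).2] at h1
            exact h1)
        have hlen : l.length = k := by rw [← List.toFinset_card_of_nodup hnd]; exact hlk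
        rw [hlen] at ha'
        exact le_of_limit _ _ k a' (hilb P') (e P') hp4 ha'
      have hKl : (l.map (Kb n (aOf c))).prod ≤
          A0 * 2 ^ (E1 (fun i => ((l.toFinset).filter (fun s => i ≤ s)).card) c) := by
        rw [← List.prod_toFinset (Kb n (aOf c)) hnd, prod_Kb c _ hln, hlk]
        refine Nat.mul_le_mul_right _ ?_
        rw [hA0]
        exact Nat.pow_le_pow_right (by positivity) hk
      calc F.card = ∑ P' ∈ X, (F.filter (fun i => P i = P')).card := hsplit
        _ ≤ ∑ P' ∈ X, (l.map (Kb n (aOf c))).prod * e P' := Finset.sum_le_sum hterm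
        _ = (l.map (Kb n (aOf c))).prod * d := by rw [hd, Finset.mul_sum]
        _ ≤ _ := Nat.mul_le_mul_right _ hKl
    · have h1 := total_count F n (YY n (aOf c)) (Kb n (aOf c)) hcb v yq
        (fun i hi => hv0 i (hFI i hi)) (fun i hi j hj hij => hxne i (hFI i hi) j (hFI j hj) hij)
        hY (fun i hi => hind i (hFI i hi)) (fun i hi => hyv i (hFI i hi))
        (fun i hi => hspan i (hFI i hi))
      rw [prod_Kb c (range n) (fun s hs => Finset.mem_range.1 hs), Finset.card_range, E1_full] at h1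
      exact h1
  rcases Nat.eq_zero_or_pos d with hd0 | hdpos
  · -- degree zero: no points
    exfalso
    have : I.card = 0 := by
      rw [hIcard]
      refine Finset.sum_eq_zero fun p hp => ?_
      have := (hfib1 p hp).1
      rw [hd0, mul_zero] at this
      omega
    rw [Finset.card_eq_zero] at this
    rw [this] at hi₁
    simp at hi₁
  have hdu : d ≤ 2 ^ u := Nat.le_pow_clog (by norm_num) d
  have hud : 2 ^ u ≤ 2 * d := by
    rcases Nat.eq_or_lt_of_le hdpos with h | h
    · have hd1 : d = 1 := h.symm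
      rw [hu, hd1]; simp
    · have h1 := Nat.pow_pred_clog_lt_self (by norm_num : 1 < 2) h
      rw [← hu] at h1
      have hu0 : 0 < u := Nat.clog_pos (by norm_num) h
      obtain ⟨u', hu'⟩ : ∃ u', u = u' + 1 := ⟨u - 1, by omega⟩
      rw [hu', Nat.pred_succ] at h1
      rw [hu', pow_succ]
      omega
  have hfib2 : ∀ p ∈ L ×ˢ SW n β, ((I.filter (fun i => (lf i, cf i) = p)).card : ℝ) ≤
      A0 * 2 ^ (min (u + E1 (fun i => ((p.1.toFinset).filter (fun s => i ≤ s)).card) p.2)
        (E2 p.2)) := by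
    intro p hp
    obtain ⟨h1, h2⟩ := hfib1 p hp
    have h3 : (I.filter (fun i => (lf i, cf i) = p)).card ≤
        A0 * 2 ^ (min (u + E1 (fun i => ((p.1.toFinset).filter (fun s => i ≤ s)).card) p.2)
        (E2 p.2)) := by
      rcases min_choice (u + E1 (fun i => ((p.1.toFinset).filter (fun s => i ≤ s)).card) p.2)
        (E2 p.2) with h | h
      · rw [h]
        refine h1.trans ?_
        rw [pow_add, mul_assoc]
        refine Nat.mul_le_mul_left _ ?_
        rw [mul_comm]
        exact Nat.mul_le_mul_right _ hdu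
      · rw [h]; exact h2
    exact_mod_cast h3
  have hsum : (I.card : ℝ) ≤ 2 ^ n * A0 * (G * q ^ ((n + 1) * (k + 1) * β + n * u)) := by
    calc (I.card : ℝ) = ∑ p ∈ L ×ˢ SW n β, ((I.filter (fun i => (lf i, cf i) = p)).card : ℝ) := by
          rw [hIcard]; push_cast; rfl
      _ ≤ ∑ p ∈ L ×ˢ SW n β, (A0 : ℝ) *
          2 ^ (min (u + E1 (fun i => ((p.1.toFinset).filter (fun s => i ≤ s)).card) p.2)
            (E2 p.2)) := Finset.sum_le_sum hfib2
      _ = ∑ l ∈ L, (A0 : ℝ) * ∑ c ∈ SW n β,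
          2 ^ (min (u + E1 (fun i => ((l.toFinset).filter (fun s => i ≤ s)).card) c)
            (E2 c)) := by
          rw [Finset.sum_product]
          refine Finset.sum_congr rfl fun l _ => ?_
          rw [Finset.mul_sum]
      _ ≤ ∑ l ∈ L, (A0 : ℝ) * (G * q ^ ((n + 1) * (k + 1) * β + n * u)) := by
          refine Finset.sum_le_sum fun l hl => ?_
          refine mul_le_mul_of_nonneg_left ?_ (by positivity)
          obtain ⟨hnd, hlk, hln⟩ := hLmem l hl
          refine sum_main q hq1 hqpow hk ?_ ?_ ?_ hn β u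
          · intro i
            exact (Finset.card_filter_le _ _).trans hlk.le
          · intro i
            have hsub : (l.toFinset).filter (fun s => i ≤ s) ⊆ Finset.Ico i n := by
              intro s hs
              obtain ⟨hs1, hs2⟩ := Finset.mem_filter.1 hs
              exact Finset.mem_Ico.2 ⟨hs2, hln s hs1⟩
            have := Finset.card_le_card hsub
            rwa [Nat.card_Ico] at this
          · simp [hlk]
      _ = L.card * ((A0 : ℝ) * (G * q ^ ((n + 1) * (k + 1) * β + n * u))) := by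
          rw [Finset.sum_const, nsmul_eq_mul]
      _ ≤ 2 ^ n * ((A0 : ℝ) * (G * q ^ ((n + 1) * (k + 1) * β + n * u))) := by
          refine mul_le_mul_of_nonneg_right ?_ (by positivity)
          exact_mod_cast hLcard
      _ = _ := by ring
  have hβ2 : (2 : ℝ) ^ β ≤ Cn * B := by
    have : 2 ^ β ≤ Cn * B := Nat.pow_log_le_self 2 (by positivity)
    exact_mod_cast this
  have hq3 : q ^ ((n + 1) * (k + 1) * β) ≤ (Cn : ℝ) ^ (k + 1) * (B : ℝ) ^ (k + 1) := by
    calc q ^ ((n + 1) * (k + 1) * β) = ((q ^ (n + 1)) ^ β) ^ (k + 1) := by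
          rw [← pow_mul, ← pow_mul]; ring_nf
      _ ≤ ((Cn : ℝ) * B) ^ (k + 1) := by
          rw [hqpow]
          exact pow_le_pow_left₀ (by positivity) hβ2 _
      _ = _ := mul_pow _ _ _
  have hq4 : q ^ (n * u) ≤ 2 * (d : ℝ) ^ ((n : ℝ) / (n + 1)) := by
    have h1 : q ^ (n * u) = ((2 : ℝ) ^ u) ^ ((n : ℝ) / (n + 1)) := by
      rw [hq, ← Real.rpow_natCast, ← Real.rpow_mul (by norm_num), ← Real.rpow_natCast (2 : ℝ) u,
        ← Real.rpow_mul (by norm_num)]
      congr 1
      push_cast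
      field_simp
    have hd0 : (0 : ℝ) < d := by exact_mod_cast hdpos
    rw [h1]
    calc ((2 : ℝ) ^ u) ^ ((n : ℝ) / (n + 1)) ≤ (2 * (d : ℝ)) ^ ((n : ℝ) / (n + 1)) := by
          refine Real.rpow_le_rpow (by positivity) ?_ (by positivity)
          exact_mod_cast hud
      _ = (2 : ℝ) ^ ((n : ℝ) / (n + 1)) * (d : ℝ) ^ ((n : ℝ) / (n + 1)) :=
          Real.mul_rpow (by norm_num) hd0.le
      _ ≤ 2 * (d : ℝ) ^ ((n : ℝ) / (n + 1)) := by
          refine mul_le_mul_of_nonneg_right ?_ (by positivity)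
          calc (2 : ℝ) ^ ((n : ℝ) / (n + 1)) ≤ (2 : ℝ) ^ (1 : ℝ) := by
                refine Real.rpow_le_rpow_of_exponent_le (by norm_num) ?_
                rw [div_le_one hn1]
                linarith
            _ = 2 := Real.rpow_one 2
  refine le_trans ?_ (mul_le_mul_of_nonneg_right (mul_le_mul_of_nonneg_right hCfin
    (Real.rpow_nonneg (Nat.cast_nonneg d) _)) (by positivity))
  calc (I.card : ℝ) ≤ 2 ^ n * A0 * (G * q ^ ((n + 1) * (k + 1) * β + n * u)) := hsum
    _ = 2 ^ n * A0 * G * (q ^ ((n + 1) * (k + 1) * β) * q ^ (n * u)) := by rw [pow_add]; ring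
    _ ≤ 2 ^ n * A0 * G * (((Cn : ℝ) ^ (k + 1) * (B : ℝ) ^ (k + 1)) *
        (2 * (d : ℝ) ^ ((n : ℝ) / (n + 1)))) := by
        refine mul_le_mul_of_nonneg_left ?_ (by positivity)
        exact mul_le_mul hq3 hq4 (by positivity) (by positivity)
    _ = _ := by ring

end Pool.Agent.H58.SZK
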